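import Pool.Agent.Helper884.IC.Compl

/-!
# The amenability constant of the central Fourier algebra does not increase under Hall quotients
-/

set_option linter.unusedSectionVars false

open scoped BigOperators Classical
open Pool.Agent.Helper884.IC

noncomputable section

namespace Pool.Agent.Results.MP_222fdd_al.HallQuotient

/-- The coefficient `c_χ = |G|⁻¹ ∑_g u(g) χ(g⁻¹)` of the irreducible character `χ` in the class
function `u`. -/
def coef {G : Type} [Group G] (u χ : G → ℂ) : ℂ :=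
  (Nat.card G : ℂ)⁻¹ * ∑ᶠ g : G, u g * χ g⁻¹

/-- The norm `‖u‖_A = ∑_{χ ∈ Irr(G)} χ(1) |c_χ|` of a class function `u = ∑ c_χ χ`. -/
def normA {G : Type} [Group G] (u : G → ℂ) : ℝ :=
  ∑ᶠ χ ∈ {χ : G → ℂ | IsIrrChar χ}, ‖χ 1‖ * ‖coef u χ‖

/-- `u` is a class function. -/
def IsClassFun {G : Type} [Group G] (u : G → ℂ) : Prop := ∀ g y : G, u (y * g * y⁻¹) = u g

/-- The amenability constant of the central Fourier algebra `ZA(G)`: the projective tensor norm of
`∑_C 1_C ⊗ 1_C`, i.e. the infimum of `∑_k ‖a_k‖_A ‖b_k‖_A` over all finite families of class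
functions with `∑_k a_k ⊗ b_k = ∑_C 1_C ⊗ 1_C`, i.e. `∑_k a_k(x) b_k(y)` is `1` if `x` and `y` are
conjugate and `0` otherwise. -/
def AMZA (G : Type) [Group G] : ℝ :=
  sInf {r : ℝ | ∃ (m : ℕ) (a b : Fin m → G → ℂ), (∀ k, IsClassFun (a k)) ∧ (∀ k, IsClassFun (b k)) ∧
    (∀ x y : G, IsConj x y → ∑ k, a k x * b k y = 1) ∧
    (∀ x y : G, ¬ IsConj x y → ∑ k, a k x * b k y = 0) ∧
    r = ∑ k, normA (a k) * normA (b k)}

variable {G : Type} [Group G] [Fintype G]

lemma coef_eq (u χ : G → ℂ) : coef u χ = B u χ := by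
  unfold coef B
  rw [finsum_eq_sum_of_fintype]

lemma normA_eq (u : G → ℂ) : normA u = ∑ χ ∈ Irr G, ‖χ 1‖ * ‖B u χ‖ := by
  unfold normA
  rw [finsum_mem_eq_finite_toFinset_sum _ (irr_finite (G := G))]
  exact Finset.sum_congr rfl fun χ _ => by rw [coef_eq]

lemma normA_nonneg (u : G → ℂ) : 0 ≤ normA u := by
  rw [normA_eq]
  exact Finset.sum_nonneg fun χ _ => by positivity

/-- restriction of an irreducible character along a homomorphism has natural coefficients -/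
lemma coeff_nat {Q : Type} [Group Q] [Fintype Q] (s : Q →* G) {χ : G → ℂ} (hχ : IsIrrChar χ)
    {ψ : Q → ℂ} (hψ : IsIrrChar ψ) : ∃ n : ℕ, B (χ ∘ s) ψ = n := by
  obtain ⟨V, _, _, _, ρ, _, rfl⟩ := hχ
  obtain ⟨W, _, _, _, σ, _, rfl⟩ := hψ
  have : Invertible (Nat.card Q : ℂ) := invertibleOfNonzero cardG_ne
  have h := Representation.card_inv_mul_sum_char_mul_char_eq_finrank (G := Q) σ (ρ.comp s)
  exact ⟨_, h⟩

lemma deg_nat {χ : G → ℂ} (hχ : IsIrrChar χ) : ∃ n : ℕ, χ 1 = n := by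
  obtain ⟨V, _, _, _, ρ, _, rfl⟩ := hχ
  exact ⟨_, ρ.char_one⟩

lemma isClass_comp {Q : Type} [Group Q] [Fintype Q] (s : Q →* G) {u : G → ℂ} (hu : IsClass u) :
    IsClass (u ∘ s) := by
  intro g y
  show u (s (y * g * y⁻¹)) = u (s g)
  rw [map_mul, map_mul, map_inv]
  exact hu _ _

lemma norm_char {Q : Type} [Group Q] [Fintype Q] (s : Q →* G) {χ : G → ℂ} (hχ : IsIrrChar χ) :
    ∑ ψ ∈ Irr Q, ‖ψ 1‖ * ‖B (χ ∘ s) ψ‖ = ‖χ 1‖ := by
  have h1 := congrFun (expand (χ ∘ s) (isClass_comp s hχ.isClass)) 1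
  have h2 : (χ ∘ s) 1 = χ 1 := by
    show χ (s 1) = χ 1
    rw [map_one]
  rw [h2, Finset.sum_apply] at h1
  obtain ⟨n, hn⟩ := deg_nat hχ
  have h3 : ((∑ ψ ∈ Irr Q, ‖ψ 1‖ * ‖B (χ ∘ s) ψ‖ : ℝ) : ℂ) = χ 1 := by
    rw [h1, Complex.ofReal_sum]
    refine Finset.sum_congr rfl fun ψ hψ => ?_
    obtain ⟨a, ha⟩ := coeff_nat s hχ (mem_Irr.mp hψ)
    obtain ⟨b, hb⟩ := deg_nat (mem_Irr.mp hψ)
    rw [Pi.smul_apply, smul_eq_mul, ha, hb, Complex.norm_natCast, Complex.norm_natCast]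
    push_cast
    ring
  have h4 : (‖χ 1‖ : ℂ) = χ 1 := by
    rw [hn, Complex.norm_natCast]
    rfl
  rw [← h4] at h3
  exact_mod_cast h3

/-- the norm does not increase under restriction along a homomorphism -/
lemma normA_comp {Q : Type} [Group Q] [Fintype Q] (s : Q →* G) {u : G → ℂ} (hu : IsClass u) :
    normA (u ∘ s) ≤ normA u := by
  rw [normA_eq, normA_eq]
  have h1 : ∀ ψ : Q → ℂ, B (u ∘ s) ψ = ∑ χ ∈ Irr G, B u χ * B (χ ∘ s) ψ := by
    intro ψ
    have h2 : u ∘ s = ∑ χ ∈ Irr G, B u χ • (χ ∘ s) := by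
      funext q
      have h3 := congrFun (expand u hu) (s q)
      rw [Finset.sum_apply] at h3
      rw [Finset.sum_apply]
      exact h3
    conv_lhs => rw [h2]
    rw [B_sum_left]
    exact Finset.sum_congr rfl fun χ _ => B_smul_left _ _ _
  calc ∑ ψ ∈ Irr Q, ‖ψ 1‖ * ‖B (u ∘ s) ψ‖
      ≤ ∑ ψ ∈ Irr Q, ∑ χ ∈ Irr G, ‖B u χ‖ * (‖ψ 1‖ * ‖B (χ ∘ s) ψ‖) := by
        refine Finset.sum_le_sum fun ψ _ => ?_
        rw [h1 ψ]
        calc ‖ψ 1‖ * ‖∑ χ ∈ Irr G, B u χ * B (χ ∘ s) ψ‖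
            ≤ ‖ψ 1‖ * ∑ χ ∈ Irr G, ‖B u χ * B (χ ∘ s) ψ‖ :=
              mul_le_mul_of_nonneg_left (norm_sum_le _ _) (norm_nonneg _)
          _ = ∑ χ ∈ Irr G, ‖B u χ‖ * (‖ψ 1‖ * ‖B (χ ∘ s) ψ‖) := by
              rw [Finset.mul_sum]
              refine Finset.sum_congr rfl fun χ _ => ?_
              rw [norm_mul]
              ring
    _ = ∑ χ ∈ Irr G, ‖B u χ‖ * ∑ ψ ∈ Irr Q, ‖ψ 1‖ * ‖B (χ ∘ s) ψ‖ := by
        rw [Finset.sum_comm]
        exact Finset.sum_congr rfl fun χ _ => by rw [Finset.mul_sum]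
    _ = ∑ χ ∈ Irr G, ‖χ 1‖ * ‖B u χ‖ := by
        refine Finset.sum_congr rfl fun χ hχ => ?_
        rw [norm_char s (mem_Irr.mp hχ), mul_comm]

/-- the set in the definition of `AMZA` is not empty -/
lemma nonempty_set : {r : ℝ | ∃ (m : ℕ) (a b : Fin m → G → ℂ), (∀ k, IsClassFun (a k)) ∧
    (∀ k, IsClassFun (b k)) ∧ (∀ x y : G, IsConj x y → ∑ k, a k x * b k y = 1) ∧
    (∀ x y : G, ¬ IsConj x y → ∑ k, a k x * b k y = 0) ∧
    r = ∑ k, normA (a k) * normA (b k)}.Nonempty := by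
  let e := Fintype.equivFin G
  have hinv : ∀ x g y : G, IsConj x (y * g * y⁻¹) ↔ IsConj x g := by
    intro x g y
    have h1 : IsConj g (y * g * y⁻¹) := isConj_iff.mpr ⟨y, rfl⟩
    exact ⟨fun h => h.trans h1.symm, fun h => h.trans h1⟩
  let cl : G → ℂ := fun x => ((Finset.univ.filter (fun z => IsConj x z)).card : ℂ)
  refine ⟨_, Fintype.card G, fun k x => if IsConj (e.symm k) x then (cl x)⁻¹ else 0,
    fun k y => if IsConj (e.symm k) y then 1 else 0, ?_, ?_, ?_, ?_, rfl⟩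
  · intro k g y
    have h1 : cl (y * g * y⁻¹) = cl g := by
      simp only [cl]
      congr 2
      ext z
      simp only [Finset.mem_filter, Finset.mem_univ, true_and]
      rw [isConj_comm, hinv, isConj_comm]
    simp only [hinv, h1]
  · intro k g y
    simp only [hinv]
  · intro x y hxy
    rw [← e.sum_comp (fun k => (if IsConj (e.symm k) x then (cl x)⁻¹ else 0) *
      (if IsConj (e.symm k) y then (1 : ℂ) else 0))]
    simp only [Equiv.symm_apply_apply]
    have h1 : ∀ z : G, (if IsConj z x then (cl x)⁻¹ else 0) * (if IsConj z y then (1 : ℂ) else 0) =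
        if IsConj x z then (cl x)⁻¹ else 0 := by
      intro z
      by_cases hz : IsConj z x
      · rw [if_pos hz, if_pos (hz.trans hxy), if_pos (IsConj.symm hz), mul_one]
      · rw [if_neg hz, if_neg (fun h : IsConj x z => hz (IsConj.symm h)), zero_mul]
    rw [Finset.sum_congr rfl fun z _ => h1 z, ← Finset.sum_filter, Finset.sum_const, nsmul_eq_mul]
    refine mul_inv_cancel₀ ?_
    have : 0 < (Finset.univ.filter (fun z => IsConj x z)).card :=
      Finset.card_pos.mpr ⟨x, Finset.mem_filter.mpr ⟨Finset.mem_univ x, IsConj.refl x⟩⟩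
    exact_mod_cast this.ne'
  · intro x y hxy
    rw [← e.sum_comp (fun k => (if IsConj (e.symm k) x then (cl x)⁻¹ else 0) *
      (if IsConj (e.symm k) y then (1 : ℂ) else 0))]
    simp only [Equiv.symm_apply_apply]
    refine Finset.sum_eq_zero fun z _ => ?_
    by_cases hz : IsConj z x
    · rw [if_neg (fun h : IsConj z y => hxy ((IsConj.symm hz).trans h)), mul_zero]
    · rw [if_neg hz, zero_mul]

/-- If the normal subgroup `N` of the finite group `G` is a Hall subgroup then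
`AMZA(G/N) ≤ AMZA(G)`. -/
theorem result (G : Type) [Group G] [Finite G] (N : Subgroup G) [N.Normal]
    (hN : Nat.Coprime (Nat.card N) N.index) : AMZA (G ⧸ N) ≤ AMZA G := by
  have : Fintype G := Fintype.ofFinite G
  have : Fintype (G ⧸ N) := Fintype.ofFinite _
  obtain ⟨H, hH⟩ := Subgroup.exists_left_complement'_of_coprime hN
  let s : (G ⧸ N) →* G := H.subtype.comp hH.QuotientMulEquiv.toMonoidHom
  have hs : ∀ q : G ⧸ N, ((s q : G) : G ⧸ N) = q := by
    intro q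
    exact hH.QuotientMulEquiv.symm_apply_apply q
  refine le_csInf nonempty_set ?_
  rintro r ⟨m, a, b, ha, hb, hab, hab', rfl⟩
  have h1 : ∑ k, normA (a k ∘ s) * normA (b k ∘ s) ≤ ∑ k, normA (a k) * normA (b k) :=
    Finset.sum_le_sum fun k _ => mul_le_mul (normA_comp s (ha k)) (normA_comp s (hb k))
      (normA_nonneg _) (normA_nonneg _)
  refine le_trans (csInf_le ⟨0, ?_⟩ ?_) h1
  · rintro r ⟨m', a', b', _, _, _, _, rfl⟩
    exact Finset.sum_nonneg fun k _ => mul_nonneg (normA_nonneg _) (normA_nonneg _)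
  · refine ⟨m, fun k => a k ∘ s, fun k => b k ∘ s, fun k => isClass_comp s (ha k),
      fun k => isClass_comp s (hb k), fun x y hxy => hab _ _ (s.map_isConj hxy),
      fun x y hxy => hab' _ _ (fun h => hxy ?_), rfl⟩
    have h3 := (QuotientGroup.mk' N).map_isConj h
    rwa [QuotientGroup.mk'_apply, QuotientGroup.mk'_apply, hs, hs] at h3

end Pool.Agent.Results.MP_222fdd_al.HallQuotient
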